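import Mathlib
import Pool.Agent.Mg.F295da9a.G96e716

namespace Pool.Agent.Results.MP_295da9_pr.LimitDichotomy

theorem result (E : Type) [NormedAddCommGroup E] [NormedSpace ℝ E]
    (K : Geometry.SimplicialComplex ℝ E) (Y : Type) [TopologicalSpace Y] [T2Space Y]
    [SimplyConnectedSpace Y] [LocallyPathConnectedSpace Y] (e : K.space → Y)
    (he : Topology.IsOpenEmbedding e)
    (hloc : ∀ x ∈ K.space, ∃ N ∈ nhds x,
      {s ∈ K.faces | (convexHull ℝ (s : Set E) ∩ N).Nonempty}.Finite)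
    (V : Type) (G : SimpleGraph V) (pos : V → E)
    (hinj : Function.Injective pos) (hrange : Set.range pos = K.vertices)
    (hadj : ∀ u v, G.Adj u v ↔ u ≠ v ∧ ∃ s ∈ K.faces, (s : Set E) = {pos u, pos v})
    (hconn : G.Connected) (D : ℕ)
    (hdeg : ∀ v, (G.neighborSet v).Finite ∧ (G.neighborSet v).ncard ≤ D) :
    (∀ (W : Type) (H : SimpleGraph W) (o : W), H.Connected →
      (∀ n : ℕ, ∃ f : W → V, Set.BijOn f {w | H.dist o w ≤ n} {w | G.dist (f o) w ≤ n} ∧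
        ∀ x y, H.dist o x ≤ n → H.dist o y ≤ n → (H.Adj x y ↔ G.Adj (f x) (f y))) →
      ∀ p : unitInterval, p < 1 → ProbabilityTheory.setBernoulli Set.univ p
        {ω : Set W | {w | ∃ q : H.Walk o w, ∀ x ∈ q.support, x ∈ ω}.Infinite} = 0) ↔
    (∃ (W : Type) (T : SimpleGraph W) (f : V → W) (L : ℕ), T.IsTree ∧
      (∀ u v, T.dist (f u) (f v) ≤ L * G.dist u v + L ∧ G.dist u v ≤ L * T.dist (f u) (f v) + L) ∧
      ∀ w, ∃ v, T.dist (f v) w ≤ L) ∧
    ∀ l : ℝ, 1 < l → ∃ C : ℝ, ∀ (v : V) (n : ℕ), ({w | G.dist v w ≤ n}.ncard : ℝ) ≤ C * l ^ n :=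
  Pool.Agent.MP_295da9_pr.U.main K he hloc G pos hinj hrange hadj hconn D hdeg

end Pool.Agent.Results.MP_295da9_pr.LimitDichotomy
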