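import Mathlib
import Pool.Agent.Mg.F295da9.Gd0e1ae

namespace Pool.Agent.Results.MP_295da9_pr.ThickCubicPcOne

theorem result : ∃ (V : Type) (G : SimpleGraph V) (pos : V → EuclideanSpace ℝ (Fin 2))
    (K : Geometry.SimplicialComplex ℝ (EuclideanSpace ℝ (Fin 2))),
    G.Connected ∧ Infinite V ∧ (∀ v, (G.neighborSet v).Finite) ∧
    Function.Injective pos ∧ Set.range pos = K.vertices ∧
    (∀ u v, G.Adj u v ↔ u ≠ v ∧ ∃ s ∈ K.faces,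
      (s : Set (EuclideanSpace ℝ (Fin 2))) = {pos u, pos v}) ∧
    K.space = Set.univ ∧ (∀ s ∈ K.faces, ∃ t ∈ K.faces, s ⊆ t ∧ t.card = 3) ∧
    (∀ R : ℝ, {s ∈ K.faces |
      (convexHull ℝ (s : Set (EuclideanSpace ℝ (Fin 2))) ∩ Metric.ball 0 R).Nonempty}.Finite) ∧
    (∃ c C : ℝ, 0 < c ∧ c < C ∧ ∀ n : ℕ, 1 ≤ n → ∀ v : V,
      c * (n : ℝ) ^ 3 < ({w | G.dist v w ≤ n}.ncard : ℝ) ∧
        ({w | G.dist v w ≤ n}.ncard : ℝ) < C * (n : ℝ) ^ 3) ∧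
    (∀ M : ℕ, ∃ n : ℕ, ∀ A : Finset V, n ≤ A.card →
      M ≤ {w | w ∉ A ∧ ∃ v ∈ A, G.Adj v w}.ncard) ∧
    ∀ p : unitInterval, p < 1 → ∀ v : V, ProbabilityTheory.setBernoulli Set.univ p
      {ω : Set V | {w | ∃ q : G.Walk v w, ∀ x ∈ q.support, x ∈ ω}.Infinite} = 0 :=
  Pool.Agent.MP_295da9_pr.Th.main

end Pool.Agent.Results.MP_295da9_pr.ThickCubicPcOne
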